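import Pool.Agent.Helper11.M3.Goals4
import Pool.Agent.Helper17.PP.FinA

/-!
# Project M3 (MP_fc6b1e_nt): packet M3-Q_SPL

The four parts of the expansion of the conditions other than those at `q` and `P₁`.
-/

set_option autoImplicit false

namespace Pool.Agent.Helper48.M3

open Finset Pool.Agent.Helper17.PP Pool.Agent.Helper17.PP0 Pool.Agent.Helper17.PP2
open Pool.Agent.Helper11.M3

section one

open Classical in
/-- Exactly one of the four cases. -/
theorem one_case (I J a d : ℕ) (M A : Prop) (hI : 1 ≤ I) (ha : a < J) (hd : d < J)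
    (hMa : M → a = 0) (hMd : M → d = 0) (hMA : A ↔ (¬ M ∧ a < I ∧ d < I))
    (Bi Ci : ℕ → Prop) (hB : ∀ i, Bi i ↔ a = i) (hC : ∀ i, Ci i ↔ (a < I ∧ d = i)) (v : ℂ) :
    v = (if M then v else 0) + (if A then v else 0) +
      (∑ i ∈ Ico I J, if Bi i then v else 0) +
      ∑ i ∈ Ico I J, if Ci i then v else 0 := by
  have eB : (∑ i ∈ Ico I J, if Bi i then v else 0) = ∑ i ∈ Ico I J, if a = i then v else 0 := by
    refine Finset.sum_congr rfl fun i _ => ?_
    by_cases hi : a = i
    · rw [if_pos hi, if_pos ((hB i).2 hi)]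
    · rw [if_neg hi, if_neg (fun h => hi ((hB i).1 h))]
  have eC : (∑ i ∈ Ico I J, if Ci i then v else 0) =
      ∑ i ∈ Ico I J, if (a < I ∧ d = i) then v else 0 := by
    refine Finset.sum_congr rfl fun i _ => ?_
    by_cases hi : (a < I ∧ d = i)
    · rw [if_pos hi, if_pos ((hC i).2 hi)]
    · rw [if_neg hi, if_neg (fun h => hi ((hC i).1 h))]
  rw [eB, eC]
  by_cases h1 : I ≤ a
  · have hM : ¬ M := fun h => by have := hMa h; omega
    have hA : ¬ A := fun h => by have := (hMA.1 h).2.1; omega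
    rw [if_neg hM, if_neg hA, Finset.sum_ite_eq, if_pos (mem_Ico.2 ⟨h1, ha⟩),
      Finset.sum_eq_zero (s := Ico I J) (f := fun i => if (a < I ∧ d = i) then v else 0)]
    · ring
    · intro i _
      rw [if_neg (fun h => by omega)]
  · have h1' : a < I := not_le.1 h1
    have e1 : (∑ i ∈ Ico I J, if a = i then v else 0) = 0 := by
      rw [Finset.sum_ite_eq, if_neg (fun h => h1 (mem_Ico.1 h).1)]
    have e2 : (∑ i ∈ Ico I J, if (a < I ∧ d = i) then v else 0) =
        ∑ i ∈ Ico I J, if d = i then v else 0 := by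
      refine Finset.sum_congr rfl fun i _ => ?_
      by_cases hi : d = i
      · rw [if_pos ⟨h1', hi⟩, if_pos hi]
      · rw [if_neg (fun h => hi h.2), if_neg hi]
    rw [e1, e2, Finset.sum_ite_eq]
    by_cases h2 : I ≤ d
    · have hM : ¬ M := fun h => by have := hMd h; omega
      have hA : ¬ A := fun h => by have := (hMA.1 h).2.2; omega
      rw [if_neg hM, if_neg hA, if_pos (mem_Ico.2 ⟨h2, hd⟩)]
      ring
    · rw [if_neg (fun h => h2 (mem_Ico.1 h).1)]
      by_cases hM : M
      · have hA : ¬ A := fun h => (hMA.1 h).1 hM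
        rw [if_pos hM, if_neg hA]
        ring
      · have hA : A := hMA.2 ⟨hM, h1', not_le.1 h2⟩
        rw [if_neg hM, if_pos hA]
        ring

end one

section

variable {p : ℕ} {B B₀ k U Λ C : Type} [Field k] [AddCommGroup U] [Module k U]
    [AddCommGroup Λ] [Module k Λ] [AddCommGroup C] (S : Sys p B B₀ k U Λ C)

theorem sp_subset (b : Finset B) (q P₁ : B) : sp S b q P₁ ⊆ b := by
  classical
  unfold sp
  exact (filter_subset _ _).trans ((erase_subset _ _).trans (erase_subset _ _))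

theorem log_lt {b D : Finset B} {J : ℕ} (hD : D ⊆ b) (hb : S.nm b < 2 ^ J) :
    Nat.log 2 (S.nm D) < J := by
  refine Nat.log_lt_of_lt_pow (S.nm_pos D).ne' (lt_of_le_of_lt ?_ hb)
  unfold Sys.nm
  exact Finset.prod_le_prod_of_subset_of_one_le' hD fun q _ _ => by have := S.two_le q; omega

theorem log_empty : Nat.log 2 (S.nm ∅) = 0 := by
  unfold Sys.nm
  rw [Finset.prod_empty, Nat.log_one_right]

end

/-- **Q_SPL.** -/
theorem q_spl : Pool.Agent.Helper11.M3.Q_SPL := by
  classical
  intro p B B₀ k U Λ C _ _ _ _ _ _ _ _ _ _ S ψ e I J P b q P₁ t hI hIJ hb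
  unfold ful₄
  rw [← Finset.mul_sum, ← Finset.mul_sum, ← mul_add, ← mul_add, ← mul_add]
  congr 1
  rw [Finset.sum_comm (s := Ico I J), Finset.sum_comm (s := Ico I J), ← Finset.sum_add_distrib,
    ← Finset.sum_add_distrib, ← Finset.sum_add_distrib]
  refine Finset.sum_congr rfl fun x _ ↦ ?_
  rw [Finset.sum_comm (s := Ico I J), Finset.sum_comm (s := Ico I J), ← Finset.sum_add_distrib,
    ← Finset.sum_add_distrib, ← Finset.sum_add_distrib]
  refine Finset.sum_congr rfl fun χ _ ↦ ?_
  rw [Finset.sum_comm (s := Ico I J), Finset.sum_comm (s := Ico I J), ← Finset.sum_add_distrib,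
    ← Finset.sum_add_distrib, ← Finset.sum_add_distrib]
  refine Finset.sum_congr rfl fun c _ ↦ ?_
  simp only [Finset.sum_filter]
  rw [Finset.sum_comm (s := Ico I J), Finset.sum_comm (s := Ico I J), ← Finset.sum_add_distrib,
    ← Finset.sum_add_distrib, ← Finset.sum_add_distrib]
  refine Finset.sum_congr rfl fun y _ ↦ ?_
  rw [if_pos trivial]
  have hD₁ : D₁ S e b q P₁ t c y ⊆ b := (filter_subset _ _).trans (sp_subset S b q P₁)
  have hD₂ : D₂ S e b q P₁ t c y ⊆ b := (filter_subset _ _).trans (sp_subset S b q P₁)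
  refine one_case I J (Nat.log 2 (S.nm (D₁ S e b q P₁ t c y)))
    (Nat.log 2 (S.nm (D₂ S e b q P₁ t c y))) (FM S b q P₁ χ c y) (FA S e I b q P₁ t χ c y) hI
    (log_lt S hD₁ hb) (log_lt S hD₂ hb) ?_ ?_ ?_ (fun i => FB S e i b q P₁ t χ c y)
    (fun i => FC S e I i b q P₁ t χ c y) (fun i => Iff.rfl) (fun i => Iff.rfl) _
  · intro h
    have h0 : D₁ S e b q P₁ t c y = ∅ := by
      unfold D₁
      rw [filter_eq_empty_iff]
      intro q' hq' h2
      exact h2.1 (h.2 q' hq')
    rw [h0, log_empty]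
  · intro h
    have h0 : D₂ S e b q P₁ t c y = ∅ := by
      unfold D₂
      rw [filter_eq_empty_iff]
      intro q' hq' h2
      exact h2.1 (h.2 q' hq')
    rw [h0, log_empty]
  · unfold FA FM
    constructor
    · rintro ⟨h1, h2, h3⟩
      refine ⟨?_, h2, h3⟩
      rintro ⟨h4, h5⟩
      rcases h1 with h1 | ⟨q', hq', h1⟩
      · exact h1 h4
      · exact h1 (h5 q' hq')
    · rintro ⟨h1, h2, h3⟩
      refine ⟨?_, h2, h3⟩
      by_contra h4
      push Not at h4
      exact h1 h4

end Pool.Agent.Helper48.M3
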